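import Mathlib

/-!
# Project AO2 (helper949), task SEL: random independent sets, 1
-/

set_option autoImplicit false

namespace Pool.Agent.N264.AO

open Finset
open scoped Classical

noncomputable section

/-- functions with prescribed values -/
theorem card_prescribed {B : Type} [Fintype B] (S : Finset B) (f : B → Bool) :
    ((univ : Finset (B → Bool)).filter (fun ω => ∀ b ∈ S, ω b = f b)).card * 2 ^ S.card =
      2 ^ Fintype.card B := by
  have h1 : (univ : Finset (B → Bool)).filter (fun ω => ∀ b ∈ S, ω b = f b) =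
      Fintype.piFinset (fun b => if b ∈ S then {f b} else univ) := by
    ext ω
    rw [mem_filter, Fintype.mem_piFinset]
    constructor
    · rintro ⟨-, h⟩ b
      split_ifs with hb
      · rw [mem_singleton]
        exact h b hb
      · exact mem_univ _
    · intro h
      refine ⟨mem_univ _, fun b hb => ?_⟩
      have := h b
      rw [if_pos hb, mem_singleton] at this
      exact this
  rw [h1, Fintype.card_piFinset]
  have h2 : (2 : ℕ) ^ S.card = ∏ b : B, (if b ∈ S then 2 else 1) := by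
    rw [Finset.prod_ite, Finset.prod_const, Finset.prod_const_one, mul_one]
    congr 2
    ext b
    simp
  have h3 : (2 : ℕ) ^ Fintype.card B = ∏ _b : B, 2 := by
    rw [Finset.prod_const, card_univ]
  rw [h2, h3, ← Finset.prod_mul_distrib]
  refine Finset.prod_congr rfl fun b _ => ?_
  split_ifs <;> simp

variable {B : Type} [Fintype B] (R : B → B → Prop)

/-- closed neighbourhood -/
def Nb (q : B) : Finset B := insert q (univ.filter fun q' => R q q')

/-- the random independent set -/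
def Lam (ω : B → Bool) : Finset B :=
  univ.filter fun q => ∀ b ∈ Nb R q, ω b = decide (b = q)

variable {R}

lemma mem_Lam {ω : B → Bool} {q : B} : q ∈ Lam R ω ↔ ∀ b ∈ Nb R q, ω b = decide (b = q) := by
  simp [Lam]

lemma self_mem (q : B) : q ∈ Nb R q := mem_insert_self _ _

lemma Lam_ind {ω : B → Bool} {q q' : B} (hq : q ∈ Lam R ω) (hq' : q' ∈ Lam R ω) (hne : q ≠ q') :
    ¬ R q q' := by
  intro h
  have h1 := mem_Lam.1 hq q' (by simp [Nb, h])
  have h2 := mem_Lam.1 hq' q' (self_mem q')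
  rw [h1] at h2
  simp only [decide_eq_decide, iff_true] at h2
  exact hne h2.symm

lemma mem_symm (hR : ∀ q q', R q q' → R q' q) {q z : B} (h : z ∈ Nb R q) : q ∈ Nb R z := by
  rw [Nb, mem_insert, mem_filter] at h ⊢
  rcases h with h | h
  · left; exact h.symm
  · right; exact ⟨mem_univ _, hR _ _ h.2⟩

lemma card_Nb {Δ : ℕ} (hΔ : ∀ q, (univ.filter fun q' => R q q').card ≤ Δ) (q : B) :
    (Nb R q).card ≤ Δ + 1 :=
  (card_insert_le _ _).trans (Nat.succ_le_succ (hΔ q))

/-- pairwise disjoint closed neighbourhoods -/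
def Sep (R : B → B → Prop) (S : Finset B) : Prop :=
  ∀ q ∈ S, ∀ q' ∈ S, q ≠ q' → Disjoint (Nb R q) (Nb R q')

lemma count_T {T : Finset B} (hT : Sep R T) :
    (((univ : Finset (B → Bool)).filter fun ω => T ⊆ Lam R ω).card : ℝ) =
      2 ^ Fintype.card B * ∏ q ∈ T, ((2 : ℝ) ^ (Nb R q).card)⁻¹ := by
  have h1 : (univ : Finset (B → Bool)).filter (fun ω => T ⊆ Lam R ω) =
      univ.filter fun ω => ∀ b ∈ T.biUnion (Nb R), ω b = decide (b ∈ T) := by
    ext ω
    rw [mem_filter, mem_filter]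
    refine and_congr_right fun _ => ?_
    constructor
    · intro h b hb
      rw [mem_biUnion] at hb
      obtain ⟨q, hq, hbq⟩ := hb
      rw [mem_Lam.1 (h hq) b hbq, decide_eq_decide]
      constructor
      · rintro rfl; exact hq
      · intro hbT
        by_contra hne
        exact (Finset.disjoint_left.1 (hT q hq b hbT (Ne.symm hne))) hbq (self_mem b)
    · intro h q hq
      rw [mem_Lam]
      intro b hb
      rw [h b (mem_biUnion.2 ⟨q, hq, hb⟩), decide_eq_decide]
      constructor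
      · intro hbT
        by_contra hne
        exact (Finset.disjoint_left.1 (hT q hq b hbT (Ne.symm hne))) hb (self_mem b)
      · rintro rfl; exact hq
  have h2 := card_prescribed (T.biUnion (Nb R)) (fun b => decide (b ∈ T))
  rw [← h1] at h2
  have h3 : (T.biUnion (Nb R)).card = ∑ q ∈ T, (Nb R q).card :=
    card_biUnion fun q hq q' hq' hne => hT q hq q' hq' hne
  have h4 : (((univ : Finset (B → Bool)).filter fun ω => T ⊆ Lam R ω).card : ℝ) *
      2 ^ (T.biUnion (Nb R)).card = 2 ^ Fintype.card B := by exact_mod_cast h2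
  rw [h3, ← prod_pow_eq_pow_sum] at h4
  have h5 : ∏ q ∈ T, (2 : ℝ) ^ (Nb R q).card ≠ 0 := prod_ne_zero_iff.2 fun q _ => by positivity
  rw [prod_inv_distrib, ← h4, mul_assoc, mul_inv_cancel₀ h5, mul_one]

lemma exp_sum {S : Finset B} (hS : Sep R S) :
    ∑ ω : B → Bool, ∏ q ∈ S, (1 + if q ∈ Lam R ω then (-(1 / 2) : ℝ) else 0) =
      2 ^ Fintype.card B * ∏ q ∈ S, (1 + -(1 / 2) * ((2 : ℝ) ^ (Nb R q).card)⁻¹) := by
  have h1 : ∀ ω : B → Bool, ∏ q ∈ S, (1 + if q ∈ Lam R ω then (-(1 / 2) : ℝ) else 0) =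
      ∑ T ∈ S.powerset, if T ⊆ Lam R ω then (-(1 / 2) : ℝ) ^ T.card else 0 := by
    intro ω
    rw [prod_one_add]
    refine sum_congr rfl fun T _ => ?_
    split_ifs with h
    · rw [← prod_const]
      exact prod_congr rfl fun q hq => by rw [if_pos (h hq)]
    · rw [Finset.not_subset] at h
      obtain ⟨q, hq, hq'⟩ := h
      exact prod_eq_zero hq (by rw [if_neg hq'])
  simp only [h1]
  rw [sum_comm, prod_one_add, mul_sum]
  refine sum_congr rfl fun T hT => ?_
  have hTS : Sep R T := fun q hq q' hq' hne =>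
    hS q (mem_powerset.1 hT hq) q' (mem_powerset.1 hT hq') hne
  rw [← sum_filter, sum_const, nsmul_eq_mul, count_T hTS, prod_mul_distrib, prod_const]
  ring

/-- a large separated subset -/
lemma exists_sep (hR : ∀ q q', R q q' → R q' q) {Δ : ℕ}
    (hΔ : ∀ q, (univ.filter fun q' => R q q').card ≤ Δ) (P : Finset B) :
    ∃ S ⊆ P, Sep R S ∧ P.card ≤ (Δ + 1) ^ 2 * S.card := by
  obtain ⟨S, hS, hmax⟩ := exists_max_image (P.powerset.filter fun S => Sep R S) card
    ⟨∅, by simp [Sep]⟩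
  rw [mem_filter, mem_powerset] at hS
  refine ⟨S, hS.1, hS.2, ?_⟩
  have hcov : P ⊆ S.biUnion fun q => (Nb R q).biUnion (Nb R) := by
    intro p hp
    by_contra hcon
    simp only [mem_biUnion, not_exists, not_and] at hcon
    have hdis : ∀ q ∈ S, Disjoint (Nb R p) (Nb R q) := by
      intro q hq
      rw [Finset.disjoint_left]
      intro z hz hz'
      exact hcon q hq z hz' (mem_symm hR hz)
    have hpS : p ∉ S := fun h => hcon p h p (self_mem p) (self_mem p)
    have hins : insert p S ∈ P.powerset.filter fun S => Sep R S := by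
      rw [mem_filter, mem_powerset]
      refine ⟨insert_subset hp hS.1, ?_⟩
      intro q hq q' hq' hne
      rw [mem_insert] at hq hq'
      rcases hq with rfl | hq <;> rcases hq' with rfl | hq'
      · exact absurd rfl hne
      · exact hdis q' hq'
      · exact (hdis q hq).symm
      · exact hS.2 q hq q' hq' hne
    have := hmax _ hins
    rw [card_insert_of_notMem hpS] at this
    omega
  calc P.card ≤ (S.biUnion fun q => (Nb R q).biUnion (Nb R)).card := card_le_card hcov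
    _ ≤ ∑ q ∈ S, ((Nb R q).biUnion (Nb R)).card := card_biUnion_le
    _ ≤ ∑ _q ∈ S, (Δ + 1) ^ 2 := by
        refine sum_le_sum fun q _ => ?_
        calc ((Nb R q).biUnion (Nb R)).card ≤ ∑ z ∈ Nb R q, (Nb R z).card := card_biUnion_le
          _ ≤ ∑ _z ∈ Nb R q, (Δ + 1) := sum_le_sum fun z _ => card_Nb hΔ z
          _ = (Nb R q).card * (Δ + 1) := by rw [sum_const, smul_eq_mul]
          _ ≤ (Δ + 1) * (Δ + 1) := Nat.mul_le_mul_right _ (card_Nb hΔ q)
          _ = (Δ + 1) ^ 2 := by ring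
    _ = (Δ + 1) ^ 2 * S.card := by rw [sum_const, smul_eq_mul, mul_comm]

/-- the constant -/
def th (Δ : ℕ) : ℝ := ((2 : ℝ) ^ (Δ + 2))⁻¹ / (Δ + 1) ^ 2

lemma th_pos (Δ : ℕ) : 0 < th Δ := by unfold th; positivity

theorem main (hR : ∀ q q', R q q' → R q' q) {Δ : ℕ}
    (hΔ : ∀ q, (univ.filter fun q' => R q q').card ≤ Δ) (P : Finset B) :
    (((univ : Finset (B → Bool)).filter fun ω => ((Lam R ω ∩ P).card : ℝ) <
      th Δ / 2 * P.card).card : ℝ) ≤ Real.exp (-(th Δ / 2 * P.card)) * 2 ^ Fintype.card B := by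
  obtain ⟨S, hSP, hS, hcard⟩ := exists_sep hR hΔ P
  set A := (univ : Finset (B → Bool)).filter fun ω => ((Lam R ω ∩ P).card : ℝ) <
    th Δ / 2 * P.card with hA
  set x : ℝ := th Δ / 2 * P.card with hx
  have hx0 : 0 ≤ x := by have := th_pos Δ; positivity
  -- lower bound on `A`
  have hlow : ∀ ω ∈ A, Real.exp (-x) ≤
      ∏ q ∈ S, (1 + if q ∈ Lam R ω then (-(1 / 2) : ℝ) else 0) := by
    intro ω hω
    rw [hA, mem_filter] at hω
    have h1 : ∏ q ∈ S, (1 + if q ∈ Lam R ω then (-(1 / 2) : ℝ) else 0) =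
        (1 / 2 : ℝ) ^ (S.filter fun q => q ∈ Lam R ω).card := by
      rw [← prod_const, ← prod_filter_mul_prod_filter_not S fun q => q ∈ Lam R ω]
      have e1 : ∏ q ∈ S with q ∉ Lam R ω, (1 + if q ∈ Lam R ω then (-(1 / 2) : ℝ) else 0) = 1 :=
        prod_eq_one fun q hq => by rw [if_neg (mem_filter.1 hq).2, add_zero]
      rw [e1, mul_one]
      refine prod_congr rfl fun q hq => ?_
      rw [if_pos (mem_filter.1 hq).2]
      norm_num
    have h2 : (S.filter fun q => q ∈ Lam R ω).card ≤ (Lam R ω ∩ P).card := by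
      refine card_le_card fun q hq => ?_
      rw [mem_filter] at hq
      exact mem_inter.2 ⟨hq.2, hSP hq.1⟩
    have h3 : (((S.filter fun q => q ∈ Lam R ω).card : ℕ) : ℝ) ≤ x :=
      (by exact_mod_cast h2 : (((S.filter fun q => q ∈ Lam R ω).card : ℕ) : ℝ) ≤
        ((Lam R ω ∩ P).card : ℝ)).trans hω.2.le
    have h4 : (1 / 2 : ℝ) = Real.exp (-Real.log 2) := by
      rw [Real.exp_neg, Real.exp_log (by norm_num)]; norm_num
    rw [h1, h4, ← Real.exp_nat_mul, Real.exp_le_exp]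
    have h5 : Real.log 2 ≤ 1 := by have := Real.log_two_lt_d9; linarith
    have h6 : 0 < Real.log 2 := Real.log_pos (by norm_num)
    have h7 : (((S.filter fun q => q ∈ Lam R ω).card : ℕ) : ℝ) * Real.log 2 ≤ x * 1 :=
      mul_le_mul h3 h5 h6.le hx0
    linarith
  -- the expectation
  have hup : ∏ q ∈ S, (1 + -(1 / 2) * ((2 : ℝ) ^ (Nb R q).card)⁻¹) ≤ Real.exp (-(2 * x)) := by
    have h1 : ∀ q ∈ S, (1 + -(1 / 2) * ((2 : ℝ) ^ (Nb R q).card)⁻¹) ≤
        Real.exp (-((2 : ℝ) ^ (Δ + 2))⁻¹) := by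
      intro q _
      have h2 : ((2 : ℝ) ^ (Δ + 2))⁻¹ ≤ 1 / 2 * ((2 : ℝ) ^ (Nb R q).card)⁻¹ := by
        rw [pow_succ, mul_inv, mul_comm]
        refine mul_le_mul (by norm_num) ?_ (by positivity) (by norm_num)
        exact inv_anti₀ (by positivity) (pow_le_pow_right₀ (by norm_num) (card_Nb hΔ q))
      have h3 := Real.add_one_le_exp (-((2 : ℝ) ^ (Δ + 2))⁻¹)
      linarith
    have h0 : ∀ q ∈ S, (0 : ℝ) ≤ 1 + -(1 / 2) * ((2 : ℝ) ^ (Nb R q).card)⁻¹ := by
      intro q _
      have : ((2 : ℝ) ^ (Nb R q).card)⁻¹ ≤ 1 :=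
        inv_le_one_of_one_le₀ (one_le_pow₀ (by norm_num))
      linarith
    calc ∏ q ∈ S, (1 + -(1 / 2) * ((2 : ℝ) ^ (Nb R q).card)⁻¹) ≤
          ∏ _q ∈ S, Real.exp (-((2 : ℝ) ^ (Δ + 2))⁻¹) := prod_le_prod h0 h1
      _ = Real.exp (S.card * (-((2 : ℝ) ^ (Δ + 2))⁻¹)) := by
          rw [prod_const, ← Real.exp_nat_mul]
      _ ≤ Real.exp (-(2 * x)) := by
          rw [Real.exp_le_exp]
          have h4 : (P.card : ℝ) ≤ ((Δ : ℝ) + 1) ^ 2 * S.card := by exact_mod_cast hcard
          have h5 : 2 * x ≤ S.card * ((2 : ℝ) ^ (Δ + 2))⁻¹ := by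
            calc 2 * x = ((2 : ℝ) ^ (Δ + 2))⁻¹ / (Δ + 1) ^ 2 * P.card := by rw [hx, th]; ring
              _ ≤ ((2 : ℝ) ^ (Δ + 2))⁻¹ / (Δ + 1) ^ 2 * (((Δ : ℝ) + 1) ^ 2 * S.card) :=
                  mul_le_mul_of_nonneg_left h4 (by positivity)
              _ = S.card * ((2 : ℝ) ^ (Δ + 2))⁻¹ := by field_simp
          linarith
  have hnn : ∀ ω : B → Bool, 0 ≤ ∏ q ∈ S, (1 + if q ∈ Lam R ω then (-(1 / 2) : ℝ) else 0) :=
    fun ω => prod_nonneg fun q _ => by split_ifs <;> norm_num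
  have h8 : (A.card : ℝ) * Real.exp (-x) ≤ 2 ^ Fintype.card B * Real.exp (-(2 * x)) := by
    calc (A.card : ℝ) * Real.exp (-x) = ∑ _ω ∈ A, Real.exp (-x) := by
          rw [sum_const, nsmul_eq_mul]
      _ ≤ ∑ ω ∈ A, ∏ q ∈ S, (1 + if q ∈ Lam R ω then (-(1 / 2) : ℝ) else 0) :=
          sum_le_sum hlow
      _ ≤ ∑ ω : B → Bool, ∏ q ∈ S, (1 + if q ∈ Lam R ω then (-(1 / 2) : ℝ) else 0) :=
          sum_le_sum_of_subset_of_nonneg (subset_univ _) fun ω _ _ => hnn ω
      _ = 2 ^ Fintype.card B * ∏ q ∈ S, (1 + -(1 / 2) * ((2 : ℝ) ^ (Nb R q).card)⁻¹) :=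
          exp_sum hS
      _ ≤ 2 ^ Fintype.card B * Real.exp (-(2 * x)) :=
          mul_le_mul_of_nonneg_left hup (by positivity)
  have h9 : Real.exp (-(2 * x)) = Real.exp (-x) * Real.exp (-x) := by
    rw [← Real.exp_add]; ring_nf
  rw [h9, ← mul_assoc] at h8
  have h10 := le_of_mul_le_mul_right h8 (Real.exp_pos _)
  linarith

end

end Pool.Agent.N264.AO
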