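import Pool.Agent.N949.AO.Def
import Pool.Agent.N264.AO.Sel0

/-!
# Project AO2 (helper949), task SEL: random independent sets, 2
-/

set_option autoImplicit false

namespace Pool.Agent.N264.AO

open Finset
open scoped Classical

theorem sel : Pool.Agent.N949.AO.S_SEL := by
  intro Δ
  refine ⟨th Δ / 2, by have := th_pos Δ; positivity, ?_⟩
  intro σ X R hR hΔ
  let R' : X → X → Prop := fun q q' => R q q'
  have hR' : ∀ q q' : X, R' q q' → R' q' q := fun q q' h => hR _ _ h
  have hΔ' : ∀ q : X, ((univ : Finset X).filter fun q' => R' q q').card ≤ Δ := by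
    intro q
    refine le_trans (le_of_eq ?_) (hΔ q q.2)
    rw [← card_map (Function.Embedding.subtype fun x => x ∈ X)]
    congr 1
    ext b
    simp only [mem_map, mem_filter, mem_univ, true_and, Function.Embedding.subtype_apply, R']
    constructor
    · rintro ⟨a, ha, rfl⟩
      exact ⟨a.2, ha⟩
    · rintro ⟨h1, h2⟩
      exact ⟨⟨b, h1⟩, h2, rfl⟩
  refine ⟨X → Bool, inferInstance, inferInstance,
    fun ω => (Lam R' ω).map (Function.Embedding.subtype fun x => x ∈ X), ?_, ?_⟩
  · intro ω
    refine ⟨fun q hq => ?_, fun q hq q' hq' hne => ?_⟩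
    · rw [mem_map] at hq
      obtain ⟨a, -, rfl⟩ := hq
      exact a.2
    · rw [mem_map] at hq hq'
      obtain ⟨a, ha, rfl⟩ := hq
      obtain ⟨a', ha', rfl⟩ := hq'
      exact Lam_ind (R := R') ha ha' fun h => hne (by rw [h])
  · intro P hP
    let P' : Finset X := P.subtype fun x => x ∈ X
    have hcard : P'.card = P.card := by
      rw [← card_map (Function.Embedding.subtype fun x => x ∈ X)]
      congr 1
      ext b
      simp only [P', mem_map, mem_subtype, Function.Embedding.subtype_apply]
      constructor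
      · rintro ⟨a, ha, rfl⟩; exact ha
      · intro hb; exact ⟨⟨b, hP hb⟩, hb, rfl⟩
    have hint : ∀ ω : X → Bool,
        (((Lam R' ω).map (Function.Embedding.subtype fun x => x ∈ X)) ∩ P).card =
          (Lam R' ω ∩ P').card := by
      intro ω
      rw [← card_map (Function.Embedding.subtype fun x => x ∈ X) (s := Lam R' ω ∩ P')]
      congr 1
      ext b
      simp only [P', mem_inter, mem_map, mem_subtype, Function.Embedding.subtype_apply]
      constructor
      · rintro ⟨⟨a, ha, rfl⟩, hb⟩
        exact ⟨a, ⟨ha, hb⟩, rfl⟩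
      · rintro ⟨a, ⟨ha, hb⟩, rfl⟩
        exact ⟨⟨a, ha, rfl⟩, hb⟩
    have h1 := main (R := R') hR' hΔ' P'
    have h2 : (Fintype.card (X → Bool) : ℝ) = 2 ^ Fintype.card X := by
      rw [Fintype.card_fun, Fintype.card_bool]
      push_cast
      rfl
    rw [h2]
    simp only [hint, ← hcard]
    convert h1

end Pool.Agent.N264.AO
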